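import Pool.Agent.Lib.MP_f50e59_al.Final

/-!
# MP_f50e59: verbally closed subgroups of free metabelian groups which are not algebraically closed
-/

set_option autoImplicit false

namespace Pool.Agent.Results.MP_f50e59_al.VerballyClosedOnly

/-- The free solvable group of rank `r` and class `d`: the quotient of the free group of rank `r` by
the `d`-th term of its derived series. -/
def FreeSolvable (r d : ℕ) : Type := FreeGroup (Fin r) ⧸ derivedSeries (FreeGroup (Fin r)) d

/-- The group structure of the quotient. -/
instance instGroupFreeSolvable (r d : ℕ) : Group (FreeSolvable r d) :=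
  inferInstanceAs (Group (FreeGroup (Fin r) ⧸ derivedSeries (FreeGroup (Fin r)) d))

/-- `H` is a retract of `G`: some homomorphism from `G` to `H` is the identity on `H`. -/
def Retract {G : Type} [Group G] (H : Subgroup G) : Prop :=
  ∃ ρ : G →* H, ∀ h : H, ρ h = h

/-- The value in `G` of an element of the free product of `H` and the free group on `n` letters (the
left hand side of an equation with coefficients from `H`) at a tuple `x` of elements of `G`. -/
def value {G : Type} [Group G] (H : Subgroup G) {n : ℕ} (x : Fin n → G) :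
    Monoid.Coprod H (FreeGroup (Fin n)) →* G :=
  Monoid.Coprod.lift H.subtype (FreeGroup.lift x)

/-- `H` is algebraically closed in `G`: every finite system of equations with coefficients from `H`
that has a solution in `G` has a solution in `H`. -/
def AlgebraicallyClosed {G : Type} [Group G] (H : Subgroup G) : Prop :=
  ∀ (n : ℕ) (S : Set (Monoid.Coprod H (FreeGroup (Fin n)))), S.Finite →
    (∃ x : Fin n → G, ∀ s ∈ S, value H x s = 1) →
    ∃ y : Fin n → H, ∀ s ∈ S, value H (fun i => (y i : G)) s = 1

/-- `H` is verbally closed in `G`: if an equation `w(x_1, ..., x_n) = h`, with `w` a word without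
coefficients and `h` in `H`, has a solution in `G` then it has a solution in `H`. -/
def VerballyClosed {G : Type} [Group G] (H : Subgroup G) : Prop :=
  ∀ (n : ℕ) (w : FreeGroup (Fin n)) (h : H), (∃ x : Fin n → G, FreeGroup.lift x w = h) →
    ∃ y : Fin n → H, FreeGroup.lift y w = h

/-- Every element of `H` is fixed by some homomorphism from `G` to `H`. -/
def PointwiseRetract {G : Type} [Group G] (H : Subgroup G) : Prop :=
  ∀ h : H, ∃ ρ : G →* H, ρ h = h

/-- There are `k` elements `h_1, ..., h_k` which generate `H` and `k` words `w_1, ..., w_k` in `n`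
letters such that the system `w_i(x_1, ..., x_n) = h_i`, `i = 1, ..., k`, has a solution in `G` but
none in `H`. -/
def HasUnsolvedSystem {G : Type} [Group G] (k n : ℕ) (H : Subgroup G) : Prop :=
  ∃ (w : Fin k → FreeGroup (Fin n)) (h : Fin k → H),
    Subgroup.closure (Set.range h) = ⊤ ∧
    (∃ x : Fin n → G, ∀ i, FreeGroup.lift x (w i) = h i) ∧
    ¬ ∃ y : Fin n → H, ∀ i, FreeGroup.lift y (w i) = h i

section General

variable {G : Type} [Group G] (H : Subgroup G)

theorem verballyClosed_of (h : PointwiseRetract H) : VerballyClosed H := by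
  intro n w g hx
  obtain ⟨x, hx⟩ := hx
  obtain ⟨ρ, hρ⟩ := h g
  refine ⟨fun i => ρ (x i), ?_⟩
  have e : ρ.comp (FreeGroup.lift x) = FreeGroup.lift (fun i => ρ (x i)) := by
    ext i
    simp
  rw [← e, MonoidHom.comp_apply, hx, hρ]

variable {n m : ℕ} (w : Fin m → FreeGroup (Fin n)) (h : Fin m → H)
  (hx : ∃ x : Fin n → G, ∀ k, FreeGroup.lift x (w k) = h k)
  (hy : ¬ ∃ y : Fin n → H, ∀ k, FreeGroup.lift y (w k) = h k)

include hx hy

theorem not_algebraicallyClosed_of : ¬ AlgebraicallyClosed H := by
  intro hA
  obtain ⟨x, hx⟩ := hx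
  obtain ⟨y, hy'⟩ := hA n
    (Set.range fun k => (Monoid.Coprod.inr (w k) : Monoid.Coprod H (FreeGroup (Fin n))) *
      (Monoid.Coprod.inl (h k))⁻¹) (Set.finite_range _) ⟨x, by
    rintro _ ⟨k, rfl⟩
    simp [value, hx k]⟩
  refine hy ⟨y, fun k => ?_⟩
  have h1 := hy' _ ⟨k, rfl⟩
  have h2 : FreeGroup.lift (fun i => (y i : G)) (w k) = (FreeGroup.lift y (w k) : H) := by
    have e : H.subtype.comp (FreeGroup.lift y) = FreeGroup.lift (fun i => (y i : G)) := by
      ext i
      simp
    rw [← e]
    rfl
  simp only [value, map_mul, map_inv, Monoid.Coprod.lift_apply_inr, Monoid.Coprod.lift_apply_inl,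
    h2, Subgroup.subtype_apply] at h1
  exact Subtype.ext (mul_inv_eq_one.mp h1)

theorem not_retract_of : ¬ Retract H := by
  rintro ⟨ρ, hρ⟩
  obtain ⟨x, hx⟩ := hx
  refine hy ⟨fun i => ρ (x i), fun k => ?_⟩
  have e : ρ.comp (FreeGroup.lift x) = FreeGroup.lift (fun i => ρ (x i)) := by
    ext i
    simp
  rw [← e, MonoidHom.comp_apply, hx, hρ]

end General

section Rank

open Pool.Agent.VC

variable (r : ℕ) (hr : 7 ≤ r)

/-- the free metabelian group of rank 7 inside the one of rank `r` -/
def incl : SS →* FreeSolvable r 2 :=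
  QuotientGroup.map _ _ (FreeGroup.map (Fin.castLE hr)) (by
    have h := map_derivedSeries_le_derivedSeries (FreeGroup.map (Fin.castLE hr)) 2
    exact Subgroup.map_le_iff_le_comap.mp h)

/-- the retraction from rank `r` to rank 7 -/
def retr : FreeSolvable r 2 →* SS :=
  QuotientGroup.map _ _ (FreeGroup.lift fun i : Fin r =>
    if h : (i : ℕ) < 7 then FreeGroup.of (⟨i, h⟩ : Fin 7) else 1) (by
    have h := map_derivedSeries_le_derivedSeries (FreeGroup.lift fun i : Fin r =>
      if h : (i : ℕ) < 7 then FreeGroup.of (⟨i, h⟩ : Fin 7) else 1) 2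
    exact Subgroup.map_le_iff_le_comap.mp h)

theorem retr_incl (g : SS) : retr r (incl r hr g) = g := by
  obtain ⟨g, rfl⟩ := QuotientGroup.mk'_surjective _ g
  change QuotientGroup.mk' _ (FreeGroup.lift _ (FreeGroup.map (Fin.castLE hr) g)) = _
  congr 1
  have e : (FreeGroup.lift fun i : Fin r =>
      if h : (i : ℕ) < 7 then FreeGroup.of (⟨i, h⟩ : Fin 7) else 1).comp
        (FreeGroup.map (Fin.castLE hr)) = MonoidHom.id _ := by
    ext i
    simp
  exact congrArg (fun f => f g) e

end Rank

open Pool.Agent.VC in
/-- Let `r ≥ 7` and let `G` be the free metabelian group of rank `r` (the free solvable group of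
class `2`). There are a subgroup `H` of `G`, three words `w_1, w_2, w_3` in seven letters and three
elements `h_1, h_2, h_3` which generate `H`, such that every element of `H` is fixed by some
homomorphism from `G` to `H`, and the system `w_k(x_1, ..., x_7) = h_k`, `k = 1, 2, 3`, has a solution
in `G` but none in `H`. The subgroup `H` is verbally closed in `G`, but it is not algebraically closed
and not a retract. -/
theorem result (r : ℕ) (hr : 7 ≤ r) :
    ∃ H : Subgroup (FreeSolvable r 2), PointwiseRetract H ∧ HasUnsolvedSystem 3 7 H ∧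
      VerballyClosed H ∧ ¬ AlgebraicallyClosed H ∧ ¬ Retract H := by
  set j := incl r hr with hj
  set π := retr r with hπ
  have hπj : ∀ g, π (j g) = g := retr_incl r hr
  have hgK : ∀ k, gens xx k ∈ KK := fun k => ⟨FreeGroup.of k, FreeGroup.lift_apply_of⟩
  let H : Subgroup (FreeSolvable r 2) := KK.map j
  let h : Fin 3 → H := fun k => ⟨j (gens xx k), Subgroup.mem_map_of_mem j (hgK k)⟩
  have hw : ∀ {A : Type} [Group A] (x : Fin 7 → A) (k : Fin 3),
      FreeGroup.lift x (gens FreeGroup.of k) = gens x k := by
    intro A _ x k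
    rw [map_gens]
    simp only [FreeGroup.lift_apply_of]
  have h1 : Subgroup.closure (Set.range h) = ⊤ := by
    have e1 : (Subgroup.closure (Set.range h)).map H.subtype = H := by
      rw [MonoidHom.map_closure, ← Set.range_comp]
      change Subgroup.closure (Set.range fun k => j (gens xx k)) = KK.map j
      rw [KK, FreeGroup.range_lift_eq_closure, MonoidHom.map_closure, ← Set.range_comp]
      rfl
    apply Subgroup.map_injective H.subtype_injective
    rw [e1, ← MonoidHom.range_eq_map, Subgroup.range_subtype]
  have h2 : PointwiseRetract H := by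
    rintro ⟨g, hg⟩
    obtain ⟨g0, hg0, rfl⟩ := hg
    obtain ⟨ρ, ha, hb⟩ := exists_hom g0 hg0
    refine ⟨((j.comp ρ).comp π).codRestrict H (fun x => Subgroup.mem_map_of_mem j (ha _)), ?_⟩
    apply Subtype.ext
    change j (ρ (π (j g0))) = j g0
    rw [hπj, hb]
  have h3 : ∃ x : Fin 7 → FreeSolvable r 2,
      ∀ k, FreeGroup.lift x ((fun k => gens FreeGroup.of k) k) = h k := by
    refine ⟨fun i => j (xx i), fun k => ?_⟩
    change FreeGroup.lift _ (gens FreeGroup.of k) = j (gens xx k)
    rw [hw, map_gens]
  have h4 : ¬ ∃ y : Fin 7 → H,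
      ∀ k, FreeGroup.lift y ((fun k => gens FreeGroup.of k) k) = h k := by
    rintro ⟨y, hy⟩
    set z : Fin 7 → SS := fun i => π (y i) with hz
    have hzK : ∀ i, z i ∈ KK := by
      intro i
      obtain ⟨g0, hg0, hg1⟩ := (y i).2
      rw [hz]
      simp only
      rw [← hg1, hπj]
      exact hg0
    have hgz : ∀ k, gens z k = gens xx k := by
      intro k
      have e1 := congrArg (fun t : H => π (t : FreeSolvable r 2)) (hy k)
      simp only [hw] at e1
      change π (gens y k : H) = π (j (gens xx k)) at e1
      rw [hπj] at e1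
      rw [← e1]
      have e2 : ((gens y k : H) : FreeSolvable r 2) = gens (fun i => (y i : FreeSolvable r 2)) k :=
        map_gens H.subtype y k
      rw [e2, map_gens]
    refine no_retract (homOf z) ?_ ?_
    · intro g
      obtain ⟨g, rfl⟩ := QuotientGroup.mk'_surjective _ g
      change homOf z (pr g) ∈ KK
      rw [homOf_pr]
      induction g using FreeGroup.induction_on with
      | C1 => rw [map_one]; exact KK.one_mem
      | of i => rw [FreeGroup.lift_apply_of]; exact hzK i
      | inv_of i hi => rw [map_inv]; exact KK.inv_mem hi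
      | mul a b ha hb => rw [map_mul]; exact KK.mul_mem ha hb
    · rintro _ ⟨v, rfl⟩
      rw [map_lift_gens]
      congr 1
      congr 1
      funext k
      rw [← hgz k]
      congr 1
      funext i
      exact homOf_xx z i
  exact ⟨H, h2, ⟨fun k => gens FreeGroup.of k, h, h1, h3, h4⟩, verballyClosed_of H h2,
    not_algebraicallyClosed_of H _ h h3 h4, not_retract_of H _ h h3 h4⟩

end Pool.Agent.Results.MP_f50e59_al.VerballyClosedOnly
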